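import Mathlib

/-!
# Concatenated 2-stage graphs (MP_dc8297_co): definitions

The definitions are those of the starting file `Pool/Agent/Results/MP_dc8297_co/BenesFalse.lean`,
together with the numbers `F(L)` and `R(L)` of the problem.
-/

set_option autoImplicit false

namespace Pool.Agent.Y240.BN

/-- An ordered 2-stage graph whose two classes both have `n` vertices, labelled in order by
`Fin n`; `L i j` is the number of (parallel) edges joining the `i`-th vertex of the first
class to the `j`-th vertex of the second class. -/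
abbrev TwoStage (n : ℕ) : Type := Fin n → Fin n → ℕ

/-- No multiple edges. -/
def IsSimple {n : ℕ} (L : TwoStage n) : Prop := ∀ i j, L i j ≤ 1

/-- All vertices (of both classes) have degree `k`. -/
def IsRegular {n : ℕ} (L : TwoStage n) (k : ℕ) : Prop :=
  (∀ i, ∑ j, L i j = k) ∧ (∀ j, ∑ i, L i j = k)

/-- A plain path of the `(m+1)`-stage graph `L^m`: one vertex in each of the `m+1` classes,
and for each of the `m` copies of `L` one of the parallel edges of that copy which join the
two consecutive vertices. -/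
structure PlainPath {n : ℕ} (L : TwoStage n) (m : ℕ) where
  vert : Fin (m + 1) → Fin n
  edge : (s : Fin m) → Fin (L (vert s.castSucc) (vert s.succ))

/-- The path `p` joins the source `a` to the target `b`. -/
def PlainPath.Joins {n : ℕ} {L : TwoStage n} {m : ℕ} (p : PlainPath L m) (a b : Fin n) : Prop :=
  p.vert 0 = a ∧ p.vert (Fin.last m) = b

/-- The paths `p` and `q` of `L^m` have no edge in common. -/
def EdgeDisjoint {n : ℕ} {L : TwoStage n} {m : ℕ} (p q : PlainPath L m) : Prop :=
  ∀ s : Fin m, ¬ (p.vert s.castSucc = q.vert s.castSucc ∧ p.vert s.succ = q.vert s.succ ∧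
    (p.edge s).val = (q.edge s).val)

/-- `L^m` is externally connected. -/
def ExternallyConnected {n : ℕ} (L : TwoStage n) (m : ℕ) : Prop :=
  ∀ a b : Fin n, ∃ p : PlainPath L m, p.Joins a b

/-- `M` (given by its edge multiplicities) is a mask for `L^m`, `m ≥ 1`: a 2-stage multigraph
with the same sources and targets, in which every vertex has the degree it has in `L^m`. -/
def IsMask {n : ℕ} (L : TwoStage n) (M : Fin n → Fin n → ℕ) : Prop :=
  (∀ a, ∑ b, M a b = ∑ b, L a b) ∧ (∀ b, ∑ a, M a b = ∑ a, L a b)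

/-- `L^m` is rearrangeable: for every mask `M` there are pairwise edge-disjoint plain paths,
one for each edge of `M` (the `M a b` parallel edges from `a` to `b` are indexed by
`Fin (M a b)`), joining the two ends of that edge. -/
def Rearrangeable {n : ℕ} (L : TwoStage n) (m : ℕ) : Prop :=
  ∀ M : Fin n → Fin n → ℕ, IsMask L M →
    ∃ P : (Σ a : Fin n, Σ b : Fin n, Fin (M a b)) → PlainPath L m,
      (∀ e, (P e).Joins e.1 e.2.1) ∧ (∀ e e', e ≠ e' → EdgeDisjoint (P e) (P e'))

/-- `F(L)`: the least `m ≥ 1` such that `L^m` is externally connected (`⊤` if there is none). -/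
noncomputable def F {n : ℕ} (L : TwoStage n) : ℕ∞ :=
  ⨅ m : {m : ℕ // 1 ≤ m ∧ ExternallyConnected L m}, ((m : ℕ) : ℕ∞)

/-- `R(L)`: the least `m ≥ 1` such that `L^m` is rearrangeable (`⊤` if there is none). -/
noncomputable def R {n : ℕ} (L : TwoStage n) : ℕ∞ :=
  ⨅ m : {m : ℕ // 1 ≤ m ∧ Rearrangeable L m}, ((m : ℕ) : ℕ∞)

/-! ### The cut bound -/

theorem exists_cross {n m : ℕ} (A : Fin n → Prop) (v : Fin (m + 1) → Fin n) (h0 : A (v 0))
    (h1 : ¬ A (v (Fin.last m))) : ∃ s : Fin m, A (v s.castSucc) ∧ ¬ A (v s.succ) := by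
  by_contra hcon
  push Not at hcon
  have h : ∀ i : Fin (m + 1), A (v i) := by
    intro i
    induction i using Fin.induction with
    | zero => exact h0
    | succ i ih => exact hcon i ih
  exact h1 (h _)

/-- In a simple `L`, the paths which leave the set `A` use different edges leaving `A`. -/
theorem demand_le {n m : ℕ} {L : TwoStage n} (hs : IsSimple L) (hR : Rearrangeable L m)
    (A : Fin n → Prop) [DecidablePred A] (M : Fin n → Fin n → ℕ) (hM : IsMask L M) {D : Type} [Fintype D]
    (dem : D → Σ a : Fin n, Σ b : Fin n, Fin (M a b)) (hdem : Function.Injective dem)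
    (hA : ∀ d, A (dem d).1 ∧ ¬ A (dem d).2.1) :
    Fintype.card D ≤ m * Fintype.card {x : Fin n × Fin n // A x.1 ∧ ¬ A x.2 ∧ 0 < L x.1 x.2} := by
  obtain ⟨P, hJ, hD⟩ := hR M hM
  have hcross : ∀ d : D, ∃ s : Fin m, A ((P (dem d)).vert s.castSucc) ∧ ¬ A ((P (dem d)).vert s.succ) := by
    intro d
    obtain ⟨h1, h2⟩ := hJ (dem d)
    apply exists_cross A
    · rw [h1]
      exact (hA d).1
    · rw [h2]
      exact (hA d).2
  choose f hf using hcross
  let g : D → Fin m × {x : Fin n × Fin n // A x.1 ∧ ¬ A x.2 ∧ 0 < L x.1 x.2} := fun d =>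
    (f d, ⟨((P (dem d)).vert (f d).castSucc, (P (dem d)).vert (f d).succ), (hf d).1, (hf d).2,
      lt_of_le_of_lt (Nat.zero_le _) ((P (dem d)).edge (f d)).isLt⟩)
  have hg : Function.Injective g := by
    intro x y hxy
    by_contra hne
    have hfe : f x = f y := congrArg Prod.fst hxy
    have hve := congrArg (fun z => z.2.val) hxy
    have hd := hD (dem x) (dem y) (fun h => hne (hdem h)) (f x)
    apply hd
    simp only [g, Prod.mk.injEq] at hve
    have b1 := lt_of_lt_of_le ((P (dem x)).edge (f x)).isLt (hs _ _)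
    have b2 := lt_of_lt_of_le ((P (dem y)).edge (f x)).isLt (hs _ _)
    refine ⟨?_, ?_, by omega⟩
    · rw [hve.1, hfe]
    · rw [hve.2, hfe]
  have hcard := Fintype.card_le_of_injective g hg
  rw [Fintype.card_prod, Fintype.card_fin] at hcard
  exact hcard

/-! ### Short paths -/

theorem ext_two {n : ℕ} {L : TwoStage n} (h : ∀ a b, ∃ z, 0 < L a z ∧ 0 < L z b) : ExternallyConnected L 2 := by
  intro a b
  obtain ⟨z, h1, h2⟩ := h a b
  have hpos : ∀ s : Fin 2, 0 < L ((![a, z, b] : Fin 3 → Fin n) s.castSucc)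
      ((![a, z, b] : Fin 3 → Fin n) s.succ) := by
    intro s
    fin_cases s
    · exact h1
    · exact h2
  exact ⟨⟨![a, z, b], fun s => ⟨0, hpos s⟩⟩, rfl, rfl⟩

theorem ext_three {n : ℕ} {L : TwoStage n} (h : ∀ a b, ∃ y z, 0 < L a y ∧ 0 < L y z ∧ 0 < L z b) :
    ExternallyConnected L 3 := by
  intro a b
  obtain ⟨y, z, h1, h2, h3⟩ := h a b
  have hpos : ∀ s : Fin 3, 0 < L ((![a, y, z, b] : Fin 4 → Fin n) s.castSucc)
      ((![a, y, z, b] : Fin 4 → Fin n) s.succ) := by
    intro s
    fin_cases s
    · exact h1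
    · exact h2
    · exact h3
  exact ⟨⟨![a, y, z, b], fun s => ⟨0, hpos s⟩⟩, rfl, rfl⟩

theorem ext_one_iff {n : ℕ} {L : TwoStage n} : ExternallyConnected L 1 ↔ ∀ a b, 0 < L a b := by
  constructor
  · intro h a b
    obtain ⟨p, h1, h2⟩ := h a b
    have h3 := lt_of_le_of_lt (Nat.zero_le _) (p.edge 0).isLt
    have e1 : p.vert (Fin.castSucc 0) = a := h1
    have e2 : p.vert (Fin.succ 0) = b := h2
    rw [e1, e2] at h3
    exact h3
  · intro h a b
    refine ⟨⟨![a, b], fun s => ⟨0, ?_⟩⟩, rfl, rfl⟩
    fin_cases s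
    exact h a b

/-! ### Graphs in blocks -/

/-- the graph with the given blocks -/
def blk (k : ℕ) (B : Fin k ⊕ Fin k → Fin k ⊕ Fin k → ℕ) : TwoStage (k + k) :=
  fun i j => B (finSumFinEquiv.symm i) (finSumFinEquiv.symm j)

theorem blk_row {k : ℕ} (B : Fin k ⊕ Fin k → Fin k ⊕ Fin k → ℕ) (i : Fin (k + k)) :
    ∑ j, blk k B i j = ∑ y, B (finSumFinEquiv.symm i) (Sum.inl y) + ∑ y, B (finSumFinEquiv.symm i) (Sum.inr y) := by
  unfold blk
  rw [Equiv.sum_comp finSumFinEquiv.symm (fun y => B (finSumFinEquiv.symm i) y), Fintype.sum_sum_type]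

theorem blk_col {k : ℕ} (B : Fin k ⊕ Fin k → Fin k ⊕ Fin k → ℕ) (j : Fin (k + k)) :
    ∑ i, blk k B i j = ∑ y, B (Sum.inl y) (finSumFinEquiv.symm j) + ∑ y, B (Sum.inr y) (finSumFinEquiv.symm j) := by
  unfold blk
  rw [Equiv.sum_comp finSumFinEquiv.symm (fun y => B y (finSumFinEquiv.symm j)), Fintype.sum_sum_type]

/-- the mask which exchanges the two halves -/
def BM (k : ℕ) : Fin k ⊕ Fin k → Fin k ⊕ Fin k → ℕ
  | Sum.inl _, Sum.inl _ => 0
  | Sum.inl _, Sum.inr _ => 1
  | Sum.inr _, Sum.inl _ => 1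
  | Sum.inr _, Sum.inr _ => 0

theorem BM_row (k : ℕ) (i : Fin (k + k)) : ∑ j, blk k (BM k) i j = k := by
  rw [blk_row]
  cases finSumFinEquiv.symm i <;> simp [BM]

theorem BM_col (k : ℕ) (i : Fin (k + k)) : ∑ j, blk k (BM k) j i = k := by
  rw [blk_col]
  cases finSumFinEquiv.symm i <;> simp [BM]

/-- if `c` edges leave the first half then `L^m` is rearrangeable only if `k ^ 2 ≤ m c` -/
theorem blk_bound {k m c : ℕ} {B : Fin k ⊕ Fin k → Fin k ⊕ Fin k → ℕ} (hs : IsSimple (blk k B))
    (hr : IsRegular (blk k B) k) (hR : Rearrangeable (blk k B) m)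
    (hc : Fintype.card {x : Fin (k + k) × Fin (k + k) // (finSumFinEquiv.symm x.1).isLeft = true ∧
      ¬ (finSumFinEquiv.symm x.2).isLeft = true ∧ 0 < blk k B x.1 x.2} ≤ c) : k * k ≤ m * c := by
  have hM : IsMask (blk k B) (blk k (BM k)) := by
    constructor
    · intro a
      rw [BM_row, hr.1]
    · intro a
      rw [BM_col, hr.2]
  have hM1 : ∀ x : Fin k × Fin k, 0 < blk k (BM k) (finSumFinEquiv (Sum.inl x.1)) (finSumFinEquiv (Sum.inr x.2)) := by
    intro x
    unfold blk
    rw [Equiv.symm_apply_apply, Equiv.symm_apply_apply]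
    exact one_pos
  let dem : Fin k × Fin k → (Σ a : Fin (k + k), Σ b : Fin (k + k), Fin (blk k (BM k) a b)) := fun x =>
    ⟨finSumFinEquiv (Sum.inl x.1), finSumFinEquiv (Sum.inr x.2), ⟨0, hM1 x⟩⟩
  have hdem : Function.Injective dem := by
    intro x y hxy
    have h1 : (finSumFinEquiv (Sum.inl x.1) : Fin (k + k)) = finSumFinEquiv (Sum.inl y.1) :=
      congrArg (fun e => e.1) hxy
    have h2 : (finSumFinEquiv (Sum.inr x.2) : Fin (k + k)) = finSumFinEquiv (Sum.inr y.2) :=
      congrArg (fun e => e.2.1) hxy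
    have h3 := finSumFinEquiv.injective h1
    have h4 := finSumFinEquiv.injective h2
    exact Prod.ext (Sum.inl.inj h3) (Sum.inr.inj h4)
  have h := demand_le hs hR (fun i => (finSumFinEquiv.symm i).isLeft = true) _ hM dem hdem (by
    intro d
    simp only [dem, Equiv.symm_apply_apply]
    exact ⟨rfl, fun h => Bool.false_ne_true h⟩)
  rw [Fintype.card_prod, Fintype.card_fin] at h
  exact h.trans (Nat.mul_le_mul_left m hc)

/-! ### First family: `F = 2`, `R ≥ k` -/

/-- `[[J - 1, 1], [1, J - C]]`, where `C` is the matrix of the permutation `σ` -/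
def B1 (k : ℕ) (σ : Equiv.Perm (Fin k)) : Fin k ⊕ Fin k → Fin k ⊕ Fin k → ℕ
  | Sum.inl i, Sum.inl j => if i = j then 0 else 1
  | Sum.inl i, Sum.inr j => if i = j then 1 else 0
  | Sum.inr i, Sum.inl j => if i = j then 1 else 0
  | Sum.inr i, Sum.inr j => if σ i = j then 0 else 1

theorem sum_ite_ne {k : ℕ} (i : Fin k) : ∑ j : Fin k, (if i = j then 0 else 1) = k - 1 := by
  have h : ∀ j : Fin k, (if i = j then 0 else 1) = 1 - (if i = j then 1 else 0) := by
    intro j
    split_ifs <;> rfl
  have h2 : ∑ j : Fin k, (if i = j then 0 else 1) + ∑ j : Fin k, (if i = j then 1 else 0) = k := by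
    rw [← Finset.sum_add_distrib]
    have : ∀ j : Fin k, (if i = j then 0 else 1) + (if i = j then 1 else 0) = 1 := by
      intro j
      split_ifs <;> rfl
    simp [this]
  rw [Finset.sum_ite_eq] at h2
  simp only [Finset.mem_univ, if_true] at h2
  omega

theorem B1_simple (k : ℕ) (σ : Equiv.Perm (Fin k)) : IsSimple (blk k (B1 k σ)) := by
  intro i j
  unfold blk
  rcases finSumFinEquiv.symm i with a | a <;> rcases finSumFinEquiv.symm j with b | b <;>
    simp only [B1] <;> split_ifs <;> omega

theorem B1_regular (k : ℕ) (σ : Equiv.Perm (Fin k)) : IsRegular (blk k (B1 k σ)) k := by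
  constructor
  · intro i
    rw [blk_row]
    rcases finSumFinEquiv.symm i with a | a
    · simp only [B1]
      rw [sum_ite_ne, Finset.sum_ite_eq]
      simp only [Finset.mem_univ, if_true]
      have := a.pos
      omega
    · simp only [B1]
      rw [sum_ite_ne, Finset.sum_ite_eq]
      simp only [Finset.mem_univ, if_true]
      have := a.pos
      omega
  · intro i
    rw [blk_col]
    rcases finSumFinEquiv.symm i with a | a
    · simp only [B1]
      have e : ∀ y : Fin k, (if y = a then 0 else 1) = (if a = y then 0 else 1) := fun y => by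
        simp only [eq_comm]
      rw [Finset.sum_congr rfl (fun y _ => e y), sum_ite_ne, Finset.sum_ite_eq']
      simp only [Finset.mem_univ, if_true]
      have := a.pos
      omega
    · simp only [B1]
      have e : ∑ y : Fin k, (if σ y = a then 0 else 1) = ∑ y : Fin k, (if a = y then 0 else 1) := by
        rw [← Equiv.sum_comp σ (fun y => if a = y then 0 else 1)]
        refine Finset.sum_congr rfl fun y _ => ?_
        simp only [eq_comm]
      rw [e, sum_ite_ne, Finset.sum_ite_eq']
      simp only [Finset.mem_univ, if_true]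
      have := a.pos
      omega

theorem B1_ext {k : ℕ} (hk : 3 ≤ k) (σ : Equiv.Perm (Fin k)) (hσ : ∀ i, σ i ≠ i) :
    ExternallyConnected (blk k (B1 k σ)) 2 := by
  have havoid : ∀ x y : Fin k, ∃ w : Fin k, w ≠ x ∧ w ≠ y := by
    intro x y
    have h1 : ({x, y} : Finset (Fin k)).card < (Finset.univ : Finset (Fin k)).card := by
      rw [Finset.card_univ, Fintype.card_fin]
      exact lt_of_le_of_lt (Finset.card_le_two) (by omega)
    obtain ⟨w, _, hw⟩ := Finset.exists_mem_notMem_of_card_lt_card h1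
    simp only [Finset.mem_insert, Finset.mem_singleton, not_or] at hw
    exact ⟨w, hw⟩
  have key : ∀ a b : Fin k ⊕ Fin k, ∃ z, 0 < B1 k σ a z ∧ 0 < B1 k σ z b := by
    intro a b
    rcases a with a | a <;> rcases b with b | b
    · obtain ⟨w, h1, h2⟩ := havoid a b
      exact ⟨Sum.inl w, by simp [B1, h1.symm], by simp [B1, h2]⟩
    · by_cases h : a = b
      · exact ⟨Sum.inr a, by simp [B1], by
          have : σ a ≠ b := by rw [← h]; exact hσ a
          simp [B1, this]⟩
      · exact ⟨Sum.inl b, by simp [B1, h], by simp [B1]⟩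
    · by_cases h : a = b
      · exact ⟨Sum.inr b, by
          have : σ a ≠ b := by rw [← h]; exact hσ a
          simp [B1, this], by simp [B1]⟩
      · exact ⟨Sum.inl a, by simp [B1], by simp [B1, h]⟩
    · obtain ⟨w, h1, h2⟩ := havoid (σ a) (σ.symm b)
      refine ⟨Sum.inr w, by simp [B1, h1.symm], ?_⟩
      have : σ w ≠ b := by
        intro h
        apply h2
        rw [← h, Equiv.symm_apply_apply]
      simp [B1, this]
  apply ext_two
  intro a b
  obtain ⟨z, h1, h2⟩ := key (finSumFinEquiv.symm a) (finSumFinEquiv.symm b)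
  refine ⟨finSumFinEquiv z, ?_, ?_⟩
  · unfold blk
    rw [Equiv.symm_apply_apply]
    exact h1
  · unfold blk
    rw [Equiv.symm_apply_apply]
    exact h2

theorem B1_cut (k : ℕ) (σ : Equiv.Perm (Fin k)) :
    Fintype.card {x : Fin (k + k) × Fin (k + k) // (finSumFinEquiv.symm x.1).isLeft = true ∧
      ¬ (finSumFinEquiv.symm x.2).isLeft = true ∧ 0 < blk k (B1 k σ) x.1 x.2} ≤ k := by
  have key : ∀ a b : Fin k ⊕ Fin k, a.isLeft = true → ¬ b.isLeft = true → 0 < B1 k σ a b → b = a.swap := by
    intro a b h1 h2 h3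
    rcases a with a | a
    · rcases b with b | b
      · exact absurd rfl h2
      · simp only [B1] at h3
        split_ifs at h3 with h
        · rw [h]
          rfl
        · exact absurd h3 (lt_irrefl _)
    · simp at h1
  let f : {x : Fin (k + k) × Fin (k + k) // (finSumFinEquiv.symm x.1).isLeft = true ∧
      ¬ (finSumFinEquiv.symm x.2).isLeft = true ∧ 0 < blk k (B1 k σ) x.1 x.2} → {a : Fin k ⊕ Fin k // a.isLeft = true} :=
    fun x => ⟨finSumFinEquiv.symm x.1.1, x.2.1⟩
  have hf : Function.Injective f := by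
    intro x y hxy
    have h1 : finSumFinEquiv.symm x.1.1 = finSumFinEquiv.symm y.1.1 := congrArg Subtype.val hxy
    have h2 := key _ _ x.2.1 x.2.2.1 x.2.2.2
    have h3 := key _ _ y.2.1 y.2.2.1 y.2.2.2
    rw [h1, ← h3] at h2
    exact Subtype.ext (Prod.ext (finSumFinEquiv.symm.injective h1) (finSumFinEquiv.symm.injective h2))
  let g : {a : Fin k ⊕ Fin k // a.isLeft = true} → Fin k := fun a => a.1.getLeft a.2
  have hg : Function.Injective g := by
    rintro ⟨a | a, ha⟩ ⟨b | b, hb⟩ h
    · simp only [g, Sum.getLeft_inl] at h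
      subst h
      rfl
    · simp at hb
    · simp at ha
    · simp at ha
  have h := Fintype.card_le_of_injective (g ∘ f) (hg.comp hf)
  rw [Fintype.card_fin] at h
  exact h

/-! ### Second family: `F = 3`, `R ≥ k ^ 2` -/

/-- two complete bipartite graphs in which one edge each is replaced by two edges joining them -/
def B2 (k : ℕ) : Fin k ⊕ Fin k → Fin k ⊕ Fin k → ℕ
  | Sum.inl i, Sum.inl j => if i.val = 0 ∧ j.val = 0 then 0 else 1
  | Sum.inl i, Sum.inr j => if i.val = 0 ∧ j.val = 0 then 1 else 0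
  | Sum.inr i, Sum.inl j => if i.val = 0 ∧ j.val = 0 then 1 else 0
  | Sum.inr i, Sum.inr j => if i.val = 0 ∧ j.val = 0 then 0 else 1

theorem B2_simple (k : ℕ) : IsSimple (blk k (B2 k)) := by
  intro i j
  unfold blk
  rcases finSumFinEquiv.symm i with a | a <;> rcases finSumFinEquiv.symm j with b | b <;>
    simp only [B2] <;> split_ifs <;> omega

theorem sum_compl {k : ℕ} (p : Fin k → Prop) [DecidablePred p] :
    ∑ j : Fin k, (if p j then 0 else 1) + ∑ j : Fin k, (if p j then 1 else 0) = k := by
  rw [← Finset.sum_add_distrib]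
  have : ∀ j : Fin k, (if p j then 0 else 1) + (if p j then 1 else 0) = 1 := by
    intro j
    split_ifs <;> rfl
  simp [this]

theorem B2_regular (k : ℕ) : IsRegular (blk k (B2 k)) k := by
  constructor
  · intro i
    rw [blk_row]
    rcases finSumFinEquiv.symm i with a | a
    · simp only [B2]
      exact sum_compl (fun y : Fin k => a.val = 0 ∧ y.val = 0)
    · simp only [B2]
      rw [add_comm]
      exact sum_compl (fun y : Fin k => a.val = 0 ∧ y.val = 0)
  · intro i
    rw [blk_col]
    rcases finSumFinEquiv.symm i with a | a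
    · simp only [B2]
      exact sum_compl (fun y : Fin k => y.val = 0 ∧ a.val = 0)
    · simp only [B2]
      rw [add_comm]
      exact sum_compl (fun y : Fin k => y.val = 0 ∧ a.val = 0)

theorem B2_ext {k : ℕ} (hk : 2 ≤ k) : ExternallyConnected (blk k (B2 k)) 3 := by
  let o : Fin k := ⟨0, by omega⟩
  let u : Fin k := ⟨1, by omega⟩
  have ho : o.val = 0 := rfl
  have hu : u.val = 1 := rfl
  have key : ∀ a b : Fin k ⊕ Fin k, ∃ y z, 0 < B2 k a y ∧ 0 < B2 k y z ∧ 0 < B2 k z b := by
    intro a b
    rcases a with a | a <;> rcases b with b | b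
    · exact ⟨Sum.inl u, Sum.inl u, by simp [B2, hu], by simp [B2, hu], by simp [B2, hu]⟩
    · by_cases ha : a.val = 0
      · by_cases hb : b.val = 0
        · exact ⟨Sum.inl u, Sum.inl o, by simp [B2, hu], by simp [B2, hu], by simp [B2, ho, hb]⟩
        · exact ⟨Sum.inr o, Sum.inr u, by simp [B2, ho, ha], by simp [B2, hu], by simp [B2, hu]⟩
      · by_cases hb : b.val = 0
        · exact ⟨Sum.inl u, Sum.inl o, by simp [B2, hu], by simp [B2, hu], by simp [B2, ho, hb]⟩
        · exact ⟨Sum.inl o, Sum.inr o, by simp [B2, ha], by simp [B2, ho], by simp [B2, hb]⟩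
    · by_cases ha : a.val = 0
      · by_cases hb : b.val = 0
        · exact ⟨Sum.inr u, Sum.inr o, by simp [B2, hu], by simp [B2, hu], by simp [B2, ho, hb]⟩
        · exact ⟨Sum.inl o, Sum.inl u, by simp [B2, ho, ha], by simp [B2, hu], by simp [B2, hu]⟩
      · by_cases hb : b.val = 0
        · exact ⟨Sum.inr u, Sum.inr o, by simp [B2, hu], by simp [B2, hu], by simp [B2, ho, hb]⟩
        · exact ⟨Sum.inr o, Sum.inl o, by simp [B2, ha], by simp [B2, ho], by simp [B2, hb]⟩
    · exact ⟨Sum.inr u, Sum.inr u, by simp [B2, hu], by simp [B2, hu], by simp [B2, hu]⟩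
  apply ext_three
  intro a b
  obtain ⟨y, z, h1, h2, h3⟩ := key (finSumFinEquiv.symm a) (finSumFinEquiv.symm b)
  refine ⟨finSumFinEquiv y, finSumFinEquiv z, ?_, ?_, ?_⟩
  · unfold blk
    rw [Equiv.symm_apply_apply]
    exact h1
  · unfold blk
    rw [Equiv.symm_apply_apply, Equiv.symm_apply_apply]
    exact h2
  · unfold blk
    rw [Equiv.symm_apply_apply]
    exact h3

theorem B2_cut (k : ℕ) :
    Fintype.card {x : Fin (k + k) × Fin (k + k) // (finSumFinEquiv.symm x.1).isLeft = true ∧
      ¬ (finSumFinEquiv.symm x.2).isLeft = true ∧ 0 < blk k (B2 k) x.1 x.2} ≤ 1 := by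
  rw [Fintype.card_le_one_iff_subsingleton]
  have key : ∀ a b : Fin k ⊕ Fin k, a.isLeft = true → ¬ b.isLeft = true → 0 < B2 k a b →
      ∀ a' b' : Fin k ⊕ Fin k, a'.isLeft = true → ¬ b'.isLeft = true → 0 < B2 k a' b' → a = a' ∧ b = b' := by
    intro a b h1 h2 h3 a' b' h1' h2' h3'
    rcases a with a | a
    · rcases b with b | b
      · exact absurd rfl h2
      · rcases a' with a' | a'
        · rcases b' with b' | b'
          · exact absurd rfl h2'
          · simp only [B2] at h3 h3'
            split_ifs at h3 h3' with h h'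
            · constructor
              · congr 1
                exact Fin.ext (by omega)
              · congr 1
                exact Fin.ext (by omega)
            · exact absurd h3' (lt_irrefl _)
            · exact absurd h3 (lt_irrefl _)
            · exact absurd h3 (lt_irrefl _)
        · simp at h1'
    · simp at h1
  constructor
  intro x y
  obtain ⟨h1, h2⟩ := key _ _ x.2.1 x.2.2.1 x.2.2.2 _ _ y.2.1 y.2.2.1 y.2.2.2
  exact Subtype.ext (Prod.ext (finSumFinEquiv.symm.injective h1) (finSumFinEquiv.symm.injective h2))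

end Pool.Agent.Y240.BN
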