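import Pool.Agent.Y240.BN.Defs

/-!
# `R(L)` is finite if `F(L)` is finite
-/

set_option autoImplicit false

open scoped Pointwise

namespace Pool.Agent.Y240.BN

variable {n : ℕ}

/-- the lines (edges) of `L` -/
abbrev Lin (L : TwoStage n) : Type := Σ i : Fin n, Σ j : Fin n, Fin (L i j)

/-- target of a line -/
def tgt {L : TwoStage n} (e : Lin L) : Fin n := e.2.1

/-- the settings of the switches between two copies of `L` -/
def TT (L : TwoStage n) : Set (Equiv.Perm (Lin L)) := {τ | ∀ e, (τ e).1 = tgt e}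

/-- exchange the two indices -/
def swp (M : Fin n → Fin n → ℕ) : (Σ a : Fin n, Σ b : Fin n, Fin (M a b)) ≃ (Σ b : Fin n, Σ a : Fin n, Fin (M a b)) where
  toFun d := ⟨d.2.1, d.1, d.2.2⟩
  invFun d := ⟨d.2.1, d.1, d.2.2⟩
  left_inv _ := rfl
  right_inv _ := rfl

theorem card_row (M : Fin n → Fin n → ℕ) (a : Fin n) : Fintype.card (Σ b : Fin n, Fin (M a b)) = ∑ b, M a b := by
  rw [Fintype.card_sigma]
  exact Finset.sum_congr rfl fun b _ => Fintype.card_fin _

theorem card_col (M : Fin n → Fin n → ℕ) (b : Fin n) : Fintype.card (Σ a : Fin n, Fin (M a b)) = ∑ a, M a b := by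
  rw [Fintype.card_sigma]
  exact Finset.sum_congr rfl fun b _ => Fintype.card_fin _

/-- a bijection of the lines of `L` with `targets = sources` -/
theorem exists_tau {L : TwoStage n} {k : ℕ} (hr : IsRegular L k) : ∃ τ, τ ∈ TT L := by
  have h : ∀ b : Fin n, Fintype.card (Σ a : Fin n, Fin (L a b)) = Fintype.card (Σ c : Fin n, Fin (L b c)) := by
    intro b
    rw [card_col, card_row, hr.1, hr.2]
  refine ⟨(swp L).trans (Equiv.sigmaCongrRight fun b => Fintype.equivOfCardEq (h b)), fun e => rfl⟩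

/-- demands and lines, by sources -/
theorem exists_src {L : TwoStage n} {M : Fin n → Fin n → ℕ} (hM : IsMask L M) :
    ∃ α : (Σ a : Fin n, Σ b : Fin n, Fin (M a b)) ≃ Lin L, ∀ d, (α d).1 = d.1 := by
  have h : ∀ a : Fin n, Fintype.card (Σ b : Fin n, Fin (M a b)) = Fintype.card (Σ b : Fin n, Fin (L a b)) := by
    intro a
    rw [card_row, card_row, hM.1]
  exact ⟨Equiv.sigmaCongrRight fun a => Fintype.equivOfCardEq (h a), fun d => rfl⟩

/-- demands and lines, by targets -/
theorem exists_tgt {L : TwoStage n} {M : Fin n → Fin n → ℕ} (hM : IsMask L M) :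
    ∃ β : (Σ a : Fin n, Σ b : Fin n, Fin (M a b)) ≃ Lin L, ∀ d, tgt (β d) = d.2.1 := by
  have h : ∀ b : Fin n, Fintype.card (Σ a : Fin n, Fin (M a b)) = Fintype.card (Σ a : Fin n, Fin (L a b)) := by
    intro b
    rw [card_col, card_col, hM.2]
  exact ⟨((swp M).trans (Equiv.sigmaCongrRight fun b => Fintype.equivOfCardEq (h b))).trans (swp L).symm,
    fun d => rfl⟩

/-- sequences of settings -/
theorem exists_seq {L : TwoStage n} : ∀ (m : ℕ) (φ : Equiv.Perm (Lin L)), φ ∈ TT L ^ m →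
    ∃ W : ℕ → Equiv.Perm (Lin L), W 0 = 1 ∧ W m = φ ∧ ∀ s < m, ∀ e, (W (s + 1) e).1 = tgt (W s e) := by
  intro m
  induction m with
  | zero =>
    intro φ h
    rw [pow_zero, Set.mem_one] at h
    exact ⟨fun _ => 1, rfl, h.symm, fun s hs => absurd hs (Nat.not_lt_zero s)⟩
  | succ m ih =>
    intro φ h
    rw [pow_succ'] at h
    obtain ⟨τ, hτ, ψ, hψ, rfl⟩ := Set.mem_mul.1 h
    obtain ⟨W, h0, h1, h2⟩ := ih ψ hψ
    refine ⟨fun s => if s ≤ m then W s else τ * ψ, ?_, ?_, ?_⟩
    · simp [h0]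
    · simp
    · intro s hs e
      by_cases hsm : s + 1 ≤ m
      · simp only [hsm, if_true, show s ≤ m by omega]
        exact h2 s (by omega) e
      · have e1 : s = m := by omega
        subst e1
        simp only [hsm, if_false, le_refl, if_true]
        rw [h1, Equiv.Perm.mul_apply]
        exact hτ _

/-- the path of a line -/
noncomputable def pathOf {L : TwoStage n} {m : ℕ} (W : ℕ → Equiv.Perm (Lin L))
    (hW : ∀ s < m, ∀ e, (W (s + 1) e).1 = tgt (W s e)) (e : Lin L) : PlainPath L (m + 1) where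
  vert s := if s.val ≤ m then (W s.val e).1 else tgt (W m e)
  edge s := ⟨(W s.val e).2.2.val, by
    have h1 : s.val ≤ m := Nat.lt_succ_iff.1 s.isLt
    have h2 : (if s.succ.val ≤ m then (W s.succ.val e).1 else tgt (W m e)) = tgt (W s.val e) := by
      rw [Fin.val_succ]
      split_ifs with h
      · exact hW s.val (by omega) e
      · have : s.val = m := by omega
        rw [this]
    rw [h2, if_pos (show s.castSucc.val ≤ m from h1)]
    exact (W s.val e).2.2.isLt⟩

theorem rearrangeable_of_univ {L : TwoStage n} {m : ℕ} (h : TT L ^ m = Set.univ) : Rearrangeable L (m + 1) := by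
  intro M hM
  obtain ⟨α, hα⟩ := exists_src hM
  obtain ⟨β, hβ⟩ := exists_tgt hM
  have hφ : α.symm.trans β ∈ TT L ^ m := by rw [h]; exact Set.mem_univ _
  obtain ⟨W, h0, h1, h2⟩ := exists_seq m _ hφ
  refine ⟨fun d => pathOf W h2 (α d), ?_, ?_⟩
  · intro d
    constructor
    · change (if (0 : Fin (m + 1 + 1)).val ≤ m then (W (0 : Fin (m + 1 + 1)).val (α d)).1 else tgt (W m (α d))) = d.1
      rw [if_pos (show (0 : Fin (m + 1 + 1)).val ≤ m from Nat.zero_le m)]
      change (W 0 (α d)).1 = d.1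
      rw [h0]
      exact hα d
    · change (if (Fin.last (m + 1)).val ≤ m then (W (Fin.last (m + 1)).val (α d)).1 else tgt (W m (α d))) = d.2.1
      rw [if_neg (by rw [Fin.val_last]; omega), h1]
      change tgt (β (α.symm (α d))) = d.2.1
      rw [Equiv.symm_apply_apply]
      exact hβ d
  · intro d d' hne s
    rintro ⟨h3, h4, h5⟩
    apply hne
    apply α.injective
    apply (W s.val).injective
    have hs : s.val ≤ m := Nat.lt_succ_iff.1 s.isLt
    have key : ∀ x : Lin L, (if s.succ.val ≤ m then (W s.succ.val x).1 else tgt (W m x)) = tgt (W s.val x) := by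
      intro x
      rw [Fin.val_succ]
      split_ifs with h
      · exact h2 s.val (by omega) x
      · have : s.val = m := by omega
        rw [this]
    change (if s.castSucc.val ≤ m then (W s.castSucc.val (α d)).1 else tgt (W m (α d))) =
      (if s.castSucc.val ≤ m then (W s.castSucc.val (α d')).1 else tgt (W m (α d'))) at h3
    rw [if_pos (show s.castSucc.val ≤ m from hs), if_pos (show s.castSucc.val ≤ m from hs)] at h3
    change (if s.succ.val ≤ m then (W s.succ.val (α d)).1 else tgt (W m (α d))) =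
      (if s.succ.val ≤ m then (W s.succ.val (α d')).1 else tgt (W m (α d'))) at h4
    rw [key, key] at h4
    change (W s.val (α d)).2.2.val = (W s.val (α d')).2.2.val at h5
    change (W s.val (α d)).1 = (W s.val (α d')).1 at h3
    generalize W s.val (α d) = x at h3 h4 h5 ⊢
    generalize W s.val (α d') = y at h3 h4 h5 ⊢
    obtain ⟨x1, x2, x3⟩ := x
    obtain ⟨y1, y2, y3⟩ := y
    simp only [tgt] at h3 h4 h5
    subst h3
    subst h4
    rw [Fin.ext h5]

/-! ### The group -/

/-- permutations of lines with the same source -/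
def HH (L : TwoStage n) : Subgroup (Equiv.Perm (Lin L)) where
  carrier := {σ | ∀ e, (σ e).1 = e.1}
  mul_mem' := by
    intro a b ha hb e
    rw [Equiv.Perm.mul_apply, ha, hb]
  one_mem' := fun _ => rfl
  inv_mem' := by
    intro a ha e
    have h1 := ha (a⁻¹ e)
    have h2 : a (a⁻¹ e) = e := a.apply_symm_apply e
    rw [h2] at h1
    exact h1.symm

theorem mem_TT_mul {L : TwoStage n} {σ τ : Equiv.Perm (Lin L)} (hσ : σ ∈ HH L) (hτ : τ ∈ TT L) : σ * τ ∈ TT L := by
  intro e
  rw [Equiv.Perm.mul_apply, hσ, hτ]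

/-- the subgroup generated by the conjugates of `HH` -/
def SS (L : TwoStage n) (τ : Equiv.Perm (Lin L)) : Subgroup (Equiv.Perm (Lin L)) :=
  Subgroup.closure {g | ∃ i : ℕ, ∃ h ∈ HH L, g = τ ^ i * h * (τ ^ i)⁻¹}

theorem SS_conj {L : TwoStage n} {τ g : Equiv.Perm (Lin L)} (hg : g ∈ SS L τ) : τ * g * τ⁻¹ ∈ SS L τ := by
  induction hg using Subgroup.closure_induction with
  | mem x hx =>
    obtain ⟨i, h, hh, rfl⟩ := hx
    apply Subgroup.subset_closure
    refine ⟨i + 1, h, hh, ?_⟩
    rw [pow_succ']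
    group
  | one => rw [mul_one, mul_inv_cancel]; exact one_mem _
  | mul x y _ _ hx hy =>
    have : τ * (x * y) * τ⁻¹ = (τ * x * τ⁻¹) * (τ * y * τ⁻¹) := by group
    rw [this]
    exact mul_mem hx hy
  | inv x _ hx =>
    have : τ * x⁻¹ * τ⁻¹ = (τ * x * τ⁻¹)⁻¹ := by group
    rw [this]
    exact inv_mem hx

theorem HH_le {L : TwoStage n} (τ : Equiv.Perm (Lin L)) : HH L ≤ SS L τ := by
  intro h hh
  apply Subgroup.subset_closure
  exact ⟨0, h, hh, by simp⟩

theorem swap_conj {L : TwoStage n} (g : Equiv.Perm (Lin L)) (a b : Lin L) :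
    g * Equiv.swap a b * g⁻¹ = Equiv.swap (g a) (g b) := by
  rw [Equiv.mul_swap_eq_swap_mul, mul_inv_cancel_right]

/-- lines which can be exchanged -/
def Rel (L : TwoStage n) (τ : Equiv.Perm (Lin L)) (a b : Lin L) : Prop := Equiv.swap a b ∈ SS L τ

theorem Rel.symm' {L : TwoStage n} {τ : Equiv.Perm (Lin L)} {a b : Lin L} (h : Rel L τ a b) : Rel L τ b a := by
  unfold Rel at *
  rw [Equiv.swap_comm]
  exact h

theorem Rel.trans' {L : TwoStage n} {τ : Equiv.Perm (Lin L)} {a b c : Lin L} (h1 : Rel L τ a b) (h2 : Rel L τ b c) :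
    Rel L τ a c := by
  by_cases hab : a = b
  · rw [hab]; exact h2
  by_cases hac : a = c
  · unfold Rel
    rw [hac, Equiv.swap_self]
    exact one_mem _
  unfold Rel at *
  have h3 : Equiv.swap b c * Equiv.swap a b * (Equiv.swap b c)⁻¹ ∈ SS L τ := mul_mem (mul_mem h2 h1) (inv_mem h2)
  rw [swap_conj, Equiv.swap_apply_of_ne_of_ne hab hac, Equiv.swap_apply_left] at h3
  exact h3

theorem Rel.of_src {L : TwoStage n} {τ : Equiv.Perm (Lin L)} {a b : Lin L} (h : a.1 = b.1) : Rel L τ a b := by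
  apply HH_le
  intro e
  by_cases h1 : e = a
  · rw [h1, Equiv.swap_apply_left, h]
  · by_cases h2 : e = b
    · rw [h2, Equiv.swap_apply_right, h]
    · rw [Equiv.swap_apply_of_ne_of_ne h1 h2]

theorem Rel.map {L : TwoStage n} {τ : Equiv.Perm (Lin L)} {a b : Lin L} (h : Rel L τ a b) : Rel L τ (τ a) (τ b) := by
  have h1 := SS_conj h
  rw [swap_conj] at h1
  exact h1

/-- the lines which start where a path ends -/
theorem Rel.walk {L : TwoStage n} {τ : Equiv.Perm (Lin L)} (hτ : τ ∈ TT L) (e0 : Lin L) {m : ℕ} (p : PlainPath L m)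
    (h0 : p.vert 0 = e0.1) : ∀ i : Fin (m + 1), ∀ e : Lin L, e.1 = p.vert i → Rel L τ e ((τ ^ i.val) e0) := by
  intro i
  induction i using Fin.induction with
  | zero =>
    intro e he
    have : ((τ ^ (0 : Fin (m + 1)).val) e0) = e0 := rfl
    rw [this]
    exact Rel.of_src (he.trans h0)
  | succ i ih =>
    intro e he
    let f : Lin L := ⟨p.vert i.castSucc, p.vert i.succ, p.edge i⟩
    have h1 : Rel L τ f ((τ ^ i.castSucc.val) e0) := ih f rfl
    have h2 := h1.map
    have h3 : (τ f).1 = p.vert i.succ := hτ f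
    have h4 : Rel L τ e (τ f) := Rel.of_src (he.trans h3.symm)
    have h5 : τ ((τ ^ i.castSucc.val) e0) = (τ ^ i.succ.val) e0 := by
      rw [Fin.val_succ, pow_succ', Equiv.Perm.mul_apply]
      rfl
    rw [h5] at h2
    exact h4.trans' h2

theorem SS_top {L : TwoStage n} {τ : Equiv.Perm (Lin L)} (hτ : τ ∈ TT L) {m : ℕ} (hm : ExternallyConnected L m) :
    SS L τ = ⊤ := by
  have h : ∀ a b : Lin L, Rel L τ a b := by
    intro a b
    obtain ⟨p, h1, h2⟩ := hm a.1 a.1
    obtain ⟨q, h3, h4⟩ := hm a.1 b.1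
    have h5 := Rel.walk hτ a p h1 (Fin.last m) a h2.symm
    have h6 := Rel.walk hτ a q h3 (Fin.last m) b h4.symm
    exact h5.trans' h6.symm'
  rw [eq_top_iff, ← Equiv.Perm.closure_isSwap, Subgroup.closure_le]
  rintro g ⟨a, b, _, rfl⟩
  exact h a b

theorem pow_mem_pow {L : TwoStage n} {τ : Equiv.Perm (Lin L)} (hτ : τ ∈ TT L) (i : ℕ) : τ ^ i ∈ TT L ^ i :=
  Set.pow_mem_pow hτ

theorem exists_univ {L : TwoStage n} {τ : Equiv.Perm (Lin L)} (hτ : τ ∈ TT L) (hS : SS L τ = ⊤) :
    ∃ m0 : ℕ, ∀ m, m0 ≤ m → TT L ^ m = Set.univ := by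
  set N := orderOf τ with hN
  have hN0 : 0 < N := orderOf_pos τ
  have hone : (1 : Equiv.Perm (Lin L)) ∈ TT L ^ N := by
    rw [← pow_orderOf_eq_one τ]
    exact pow_mem_pow hτ N
  -- the conjugates are in `TT ^ N`
  have hconj : ∀ (i : ℕ) (h : Equiv.Perm (Lin L)), h ∈ HH L → τ ^ i * h * (τ ^ i)⁻¹ ∈ TT L ^ N := by
    intro i h hh
    have e1 : τ ^ i = τ ^ (i % N) := (pow_mod_orderOf τ i).symm
    have hlt : i % N < N := Nat.mod_lt _ hN0
    have e2 : (τ ^ i)⁻¹ = τ * τ ^ (N - 1 - i % N) := by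
      rw [e1, ← pow_succ', inv_eq_iff_mul_eq_one, ← pow_add]
      have : i % N + (N - 1 - i % N + 1) = N := by omega
      rw [this, hN, pow_orderOf_eq_one]
    rw [e2, e1, mul_assoc, ← mul_assoc h τ]
    have h3 : (TT L) ^ N = TT L ^ (i % N) * (TT L * TT L ^ (N - 1 - i % N)) := by
      rw [← pow_succ', ← pow_add]
      congr 1
      omega
    rw [h3]
    exact Set.mul_mem_mul (pow_mem_pow hτ _) (Set.mul_mem_mul (mem_TT_mul hh hτ) (pow_mem_pow hτ _))
  -- every permutation is in some power of `TT ^ N`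
  have hall : ∀ g : Equiv.Perm (Lin L), ∃ j : ℕ, g ∈ (TT L ^ N) ^ j := by
    intro g
    have hg : g ∈ Subgroup.closure {g | ∃ i : ℕ, ∃ h ∈ HH L, g = τ ^ i * h * (τ ^ i)⁻¹} := by
      change g ∈ SS L τ
      rw [hS]
      exact Subgroup.mem_top g
    induction hg using Subgroup.closure_induction'' with
    | one => exact ⟨0, by simp⟩
    | mem x hx =>
      obtain ⟨i, h, hh, rfl⟩ := hx
      exact ⟨1, by rw [pow_one]; exact hconj i h hh⟩
    | inv_mem x hx =>
      obtain ⟨i, h, hh, rfl⟩ := hx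
      refine ⟨1, ?_⟩
      rw [pow_one]
      have : (τ ^ i * h * (τ ^ i)⁻¹)⁻¹ = τ ^ i * h⁻¹ * (τ ^ i)⁻¹ := by group
      rw [this]
      exact hconj i _ (inv_mem hh)
    | mul x y _ _ hx hy =>
      obtain ⟨j1, h1⟩ := hx
      obtain ⟨j2, h2⟩ := hy
      exact ⟨j1 + j2, by rw [pow_add]; exact Set.mul_mem_mul h1 h2⟩
  choose j hj using hall
  obtain ⟨J, hJ⟩ : ∃ J, ∀ g, j g ≤ J := ⟨Finset.univ.sup j, fun g => Finset.le_sup (Finset.mem_univ g)⟩
  refine ⟨N * J, fun m hm => ?_⟩
  have hU : TT L ^ (N * J) = Set.univ := by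
    rw [Set.eq_univ_iff_forall]
    intro g
    rw [pow_mul]
    exact Set.pow_subset_pow_right hone (hJ g) (hj g)
  obtain ⟨r, rfl⟩ := Nat.exists_eq_add_of_le hm
  rw [Set.eq_univ_iff_forall]
  intro g
  rw [pow_add]
  have : g = (g * (τ ^ r)⁻¹) * τ ^ r := by group
  rw [this]
  exact Set.mul_mem_mul (by rw [hU]; exact Set.mem_univ _) (pow_mem_pow hτ r)

/-- **If some power of a regular `L` is externally connected, all large powers are rearrangeable.** -/
theorem eventually_rearrangeable {L : TwoStage n} {k m : ℕ} (hr : IsRegular L k) (hm : ExternallyConnected L m) :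
    ∃ m0 : ℕ, ∀ m', m0 ≤ m' → Rearrangeable L m' := by
  obtain ⟨τ, hτ⟩ := exists_tau hr
  obtain ⟨m0, h0⟩ := exists_univ hτ (SS_top hτ hm)
  refine ⟨m0 + 1, fun m' hm' => ?_⟩
  obtain ⟨r, rfl⟩ := Nat.exists_eq_add_of_le hm'
  have e : m0 + 1 + r = (m0 + r) + 1 := by omega
  rw [e]
  exact rearrangeable_of_univ (h0 _ (by omega))

/-- **A rearrangeable power is externally connected.** -/
theorem ext_of_rearrangeable {L : TwoStage n} {k m : ℕ} (hk : 1 ≤ k) (hr : IsRegular L k) (hR : Rearrangeable L m) :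
    ExternallyConnected L m := by
  intro a b
  let M : Fin n → Fin n → ℕ := fun x y => if Equiv.swap a b x = y then k else 0
  have hM : IsMask L M := by
    constructor
    · intro x
      rw [hr.1]
      simp [M]
    · intro y
      rw [hr.2]
      have : ∀ x, (if Equiv.swap a b x = y then k else 0) = if x = Equiv.swap a b y then k else 0 := by
        intro x
        congr 1
        rw [Equiv.swap_apply_eq_iff]
      simp only [M, this]
      simp
  have hpos : 0 < M a b := by
    simp only [M, Equiv.swap_apply_left, if_true]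
    omega
  obtain ⟨P, hJ, -⟩ := hR M hM
  exact ⟨P ⟨a, b, ⟨0, hpos⟩⟩, hJ _⟩

end Pool.Agent.Y240.BN
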